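import Pool.Agent.H9.S6.H7R

/-!
# No labels above the thickness

Above the number `th u` of the exact points there are no planks, on any event which is not
exponentially small.
-/

set_option autoImplicit false

namespace Pool.RPL

open Finset Real
open Pool.Agent.H49.Ent Pool.Agent.H32.Dense Pool.STK Pool.KA Pool.KSAT Pool.K2S Pool.PB
open Pool.S6C Pool.KS6

/-- There are no planks of thickness `s > th u` for the windows `u`, visible at the exact points. -/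
theorem hno_clp {S : PCl 3} {a R h₁ : ℝ} {i₀ : Fin 3} {c s₂ : ℝ} {r : ℝ → ℝ} {D : Set ℝ}
    {σ : ℝ → Row} (hC : Cs S a R h₁ i₀ c s₂ r D σ) {u : ℚ} (h0 : 0 ≤ u) (h1 : u ≤ 1) {s k : ℝ}
    (hs : (σ 1).th u < s) (hs1 : s ≤ 1) :
    Clp S (fun J F A => ∀ iu iN : Fin 3, (∀ j : Fin 3, j = i₀ ∨ j = iu ∨ j = iN) →
      ∀ B' : F.Ω → Prop, Sub B' A → Real.exp (-k) * Pe F.p A ≤ Pe F.p B' →
      ¬ LABq F J i₀ iu iN ⌊(u : ℝ) * J⌋₊ 0 ⌊s * J⌋₊ 2 B') := by
  have hG := (hC.row 1 one_pos le_rfl hC.D1).th u h0 h1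
  obtain ⟨c', hc', J₁, hn⟩ := num_no (qTh_hered i₀ 1 u) hG (sub_pos.2 hs)
  obtain ⟨J₂, hJ₂⟩ := exists_nat_gt (k / c')
  refine Clp.of hc' (max J₁ J₂) fun J hJ F A hA iu iN hi B' hB' hP hL => ?_
  have hJ1 : J₁ ≤ J := (le_max_left _ _).trans hJ
  have hJ2 : (J₂ : ℝ) ≤ J := by exact_mod_cast (le_max_right _ _).trans hJ
  have hk : k ≤ c' * J := by
    have := hJ₂.trans_le hJ2
    rw [div_lt_iff₀ hc'] at this
    linarith
  have e1 : (σ 1).th u + (s - (σ 1).th u) = s := by ring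
  have e2 : ⌊(1 : ℝ) * (J : ℝ)⌋₊ = J := by rw [one_mul, Nat.floor_natCast]
  refine hn J hJ1 F A hA B' hB' ?_ ?_
  · refine le_trans ?_ hP
    exact mul_le_mul_of_nonneg_right (Real.exp_le_exp.2 (by linarith)) (Pe_nonneg F.isLaw A)
  · rw [e1]
    refine Or.inr ⟨hs1, iu, iN, hi, ?_⟩
    rw [e2]
    exact hL

end Pool.RPL
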